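import Pool.Agent.H546.F148
import Pool.Agent.H546.Lin2

set_option autoImplicit false

/-!
# `∑ (4k)!/k!^4 / (-2^10 21^4)^k` modulo `p²` (Q1)

The proof: the sum is the square of a Legendre polynomial modulo `p²` (Clausen); the elliptic curve
`y² = V³ - 4V² + 4zV`, `z = 1/2 - 145√37/1764`, with complex multiplication by the order of discriminant `-148`, has
isogenies of degrees `2` and `19` to its conjugate (the second is verified by an evaluation in the kernel); over the
Witt vectors of an algebraic closure of `ZMod p` a combination of these isogenies of degree `p` lifts the Frobenius,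
and comparing expansions modulo `p²` gives the value of the Legendre polynomial modulo `p²`. In the last case the
Hasse invariant vanishes.
-/

open Finset

namespace Pool.Agent.Results.MP_7e705e_nt.TwentyOneFourth

/-- the constant `-2^10 21^4 = -199148544` -/
def c : ℤ := -2 ^ 10 * 21 ^ 4

/-- the sum `S(p) = ∑_{k<p} (4k)!/(k!)^4 / c^k` -/
def S (p : ℕ) : ℚ := ∑ k ∈ range p, (((4 * k).factorial : ℚ) / (k.factorial : ℚ) ^ 4) / (c : ℚ) ^ k

/-- congruence modulo `p²` of rational numbers: `(a - b) / p²` has denominator prime to `p` -/
def Cong (p : ℕ) (a b : ℚ) : Prop := p.Coprime ((a - b) / (p : ℚ) ^ 2).den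

open Pool.Agent.H546

theorem s19 : S 19 = 1228773352468156780137280829389100571280548573453584626637262162523532856409284904554188699034597580715659661590605669746029286727875840971782175/1228773500551330637044482123479191598432103782459108407098877939186286990264744235175063640998321748260718203514837892406801636728200854253862912 := by
  norm_num [S, c, sum_range_succ, Nat.factorial]

theorem s23 : S 23 = 146150868676018326580917372409430561755899478611753778659807955393399031086156553318502824134963540604163322407950845122032121083615990211841066755153564816313425517868723013775/146150886289099251567603929378580236265571143263317848919507444710490572091496959608796306056797486069508729680451221025144017025038315263699092106878072893928803436271214002176 := by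
  norm_num [S, c, sum_range_succ, Nat.factorial]

/-- **The full answer to Q1.** -/
theorem result (p : ℕ) [hp : Fact p.Prime] (h3 : 3 < p) (h7 : p ≠ 7) :
    (legendreSym p (-1) = 1 → legendreSym p 37 = 1 → ∀ x y : ℤ, (p : ℤ) = x ^ 2 + 37 * y ^ 2 →
      Cong p (S p) (4 * x ^ 2 - 2 * p)) ∧
    (legendreSym p (-1) = -1 → legendreSym p 37 = -1 → ∀ x y : ℤ, (2 * p : ℤ) = x ^ 2 + 37 * y ^ 2 →
      Cong p (S p) (2 * p - 2 * x ^ 2)) ∧
    (legendreSym p (-37) = -1 → Cong p (S p) 0) := by
  by_cases h37 : p = 37
  · subst h37
    have e1 : legendreSym 37 37 = 0 := by norm_num
    have e2 : legendreSym 37 (-37) = 0 := by norm_num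
    refine ⟨fun _ h => ?_, fun _ h => ?_, fun h => ?_⟩
    · rw [e1] at h; exact absurd h (by norm_num)
    · rw [e1] at h; exact absurd h (by norm_num)
    · rw [e2] at h; exact absurd h (by norm_num)
  have hM : ¬ (p : ℤ) ∣ -199148544 := ndvd_fac [(2, 10), (3, 4), (7, 4)]
    (by simp; exact ⟨⟨by norm_num, by omega⟩, ⟨by norm_num, by omega⟩, ⟨by norm_num, h7⟩⟩) (by norm_num)
  obtain ⟨wi, hwi⟩ := inv_exists hM
  have tr : ∀ E : ℤ, ∑ k ∈ range p, (k.centralBinom : ZMod (p ^ 2)) *
      ((u4 k : ℕ) : ZMod (p ^ 2)) * wi ^ k = ((E : ℤ) : ZMod (p ^ 2)) →
      Cong p (S p) (E : ℚ) := by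
    intro E hE
    have h := tr4 hM hwi E hE
    have e : c = -199148544 := by norm_num [c]
    unfold Cong S
    rw [e]
    exact h
  obtain ⟨m1, m2, m3⟩ := d148 p h3 h7 h37 hwi
  have small : p ≤ 23 → p = 5 ∨ p = 11 ∨ p = 13 ∨ p = 17 ∨ p = 19 ∨ p = 23 := by
    intro h
    have hpp := hp.out
    interval_cases p <;> first | omega | (exfalso; revert hpp; norm_num)
  refine ⟨fun hc1 hc2 x y hxy => ?_, fun hc1 hc2 x y hxy => ?_, fun hc => ?_⟩
  · by_cases h23 : 23 < p
    · have := tr _ (m1 hc1 hc2 h23 x y hxy)
      push_cast at this; exact this
    · exfalso
      rcases small (by omega) with rfl | rfl | rfl | rfl | rfl | rfl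
      · have f : legendreSym 5 37 = -1 := by norm_num
        rw [f] at hc2; exact absurd hc2 (by norm_num)
      · have f : legendreSym 11 (-1) = -1 := by norm_num
        rw [f] at hc1; exact absurd hc1 (by norm_num)
      · have f : legendreSym 13 37 = -1 := by norm_num
        rw [f] at hc2; exact absurd hc2 (by norm_num)
      · have f : legendreSym 17 37 = -1 := by norm_num
        rw [f] at hc2; exact absurd hc2 (by norm_num)
      · have f : legendreSym 19 (-1) = -1 := by norm_num
        rw [f] at hc1; exact absurd hc1 (by norm_num)
      · have f : legendreSym 23 (-1) = -1 := by norm_num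
        rw [f] at hc1; exact absurd hc1 (by norm_num)
  · by_cases h23 : 23 < p
    · have := tr _ (m2 hc1 hc2 h23 x y hxy)
      push_cast at this; exact this
    · have hx0 := sq_nonneg x
      have hy0 := sq_nonneg y
      rcases small (by omega) with rfl | rfl | rfl | rfl | rfl | rfl
      · have f : legendreSym 5 (-1) = 1 := by norm_num
        rw [f] at hc1; exact absurd hc1 (by norm_num)
      · have f : legendreSym 11 37 = 1 := by norm_num
        rw [f] at hc2; exact absurd hc2 (by norm_num)
      · have f : legendreSym 13 (-1) = 1 := by norm_num
        rw [f] at hc1; exact absurd hc1 (by norm_num)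
      · have f : legendreSym 17 (-1) = 1 := by norm_num
        rw [f] at hc1; exact absurd hc1 (by norm_num)
      · have hx2 : x ^ 2 = 1 := by
          push_cast at hxy
          have hy1 : y < 2 := by nlinarith
          have hy2 : -2 < y := by nlinarith
          have hx1 : x < 7 := by nlinarith
          have hx2 : -7 < x := by nlinarith
          interval_cases x <;> interval_cases y <;> omega
        have hxq : (x : ℚ) ^ 2 = 1 := by exact_mod_cast hx2
        rw [hxq]
        refine cop_of_eq (n := -119133165283600404857241206692137941751454813282754343570422004565603320756569273024232970573144003758089184667433679936007838325449736598801337) (d := 1228773500551330637044482123479191598432103782459108407098877939186286990264744235175063640998321748260718203514837892406801636728200854253862912) ?_ (by norm_num)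
        rw [s19]; norm_num
      · have hx2 : x ^ 2 = 9 := by
          push_cast at hxy
          have hy1 : y < 2 := by nlinarith
          have hy2 : -2 < y := by nlinarith
          have hx1 : x < 7 := by nlinarith
          have hx2 : -7 < x := by nlinarith
          interval_cases x <;> interval_cases y <;> omega
        have hxq : (x : ℚ) ^ 2 = 9 := by exact_mod_cast hx2
        rw [hxq]
        refine cop_of_eq (n := -7459497065063819881497150567468461349111706111079671060654821354442981072733002487198097817495966104616410413316981745901701995496137688415375259428038707398285577878497673057) (d := 146150886289099251567603929378580236265571143263317848919507444710490572091496959608796306056797486069508729680451221025144017025038315263699092106878072893928803436271214002176) ?_ (by norm_num)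
        rw [s23]; norm_num
  · have := tr _ (m3 hc)
    push_cast at this; exact this

end Pool.Agent.Results.MP_7e705e_nt.TwentyOneFourth
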